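import Pool.Agent.K3h20.CR.Stm

/-!
# Project CR, brick OUT: every point is close to a point outside the level neighbourhood
-/

set_option autoImplicit false

open Set Filter Topology MeasureTheory Metric

namespace Pool.Agent.K3h65.CR

open Pool.Agent.K3h20.CR

/-- moving by `t` from `w₁` in the direction of growth of `|r|` -/
theorem grow (hld : St_ld) {r g : ℂ → ℂ} {w₁ : ℂ} {t B γ : ℝ} (ht : 0 < t) (hB : 0 ≤ B)
    (hBt : B * t ^ 2 ≤ 1 / 4) (hγ : γ ≤ ‖g w₁‖) (hγ0 : 0 < γ) (hcmp : 8 * B * t ≤ γ)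
    (hr : ∀ x ∈ closedBall w₁ t, HasDerivAt r (g x * r x) x ∧ ‖g x - g w₁‖ ≤ B * ‖x - w₁‖) :
    ∃ w₂ : ℂ, ‖w₂ - w₁‖ ≤ t ∧ Real.exp (γ * t / 2) * ‖r w₁‖ ≤ ‖r w₂‖ := by
  have hg0 : 0 < ‖g w₁‖ := lt_of_lt_of_le hγ0 hγ
  have hg0' : (‖g w₁‖ : ℂ) ≠ 0 := by exact_mod_cast hg0.ne'
  set w₂ : ℂ := w₁ + t * ((starRingEnd ℂ) (g w₁) / ‖g w₁‖) with hw₂
  have hd2 : w₂ - w₁ = t * ((starRingEnd ℂ) (g w₁) / ‖g w₁‖) := by rw [hw₂]; ring
  have hn2 : ‖w₂ - w₁‖ = t := by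
    rw [hd2, norm_mul, norm_div]
    simp only [RCLike.norm_conj, Complex.norm_real, Real.norm_eq_abs, abs_of_pos ht,
      abs_of_pos hg0]
    field_simp
  have hgd : g w₁ * (w₂ - w₁) = ((‖g w₁‖ * t : ℝ) : ℂ) := by
    rw [hd2]
    have : g w₁ * (t * ((starRingEnd ℂ) (g w₁) / ‖g w₁‖)) =
        t * ((g w₁ * (starRingEnd ℂ) (g w₁)) / ‖g w₁‖) := by ring
    rw [this, Complex.mul_conj, Complex.normSq_eq_norm_sq]
    push_cast
    field_simp
  refine ⟨w₂, hn2.le, ?_⟩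
  set F : ℂ → ℂ := fun x => r x * Complex.exp (-(g w₁ * (x - w₁))) with hF
  set F' : ℂ → ℂ := fun x => (g x - g w₁) * F x with hF'
  have hder : ∀ x ∈ closedBall w₁ t, HasDerivAt F (F' x) x ∧ ‖F' x‖ ≤ (B * t) * ‖F x‖ := by
    intro x hx
    obtain ⟨h1, h2⟩ := hr x hx
    constructor
    · have he : HasDerivAt (fun x : ℂ => -(g w₁ * (x - w₁))) (-(g w₁ * 1)) x :=
        (((hasDerivAt_id x).sub_const w₁).const_mul (g w₁)).neg
      refine (h1.mul he.cexp).congr_deriv ?_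
      show _ = (g x - g w₁) * (r x * Complex.exp (-(g w₁ * (x - w₁))))
      ring
    · show ‖(g x - g w₁) * F x‖ ≤ _
      rw [norm_mul]
      refine mul_le_mul_of_nonneg_right (h2.trans ?_) (norm_nonneg _)
      refine mul_le_mul_of_nonneg_left ?_ hB
      simpa [dist_eq_norm] using hx
  have hmem : w₂ ∈ closedBall w₁ t := by
    rw [mem_closedBall, dist_eq_norm, hn2]
  have hkey := hld F F' w₁ t (B * t) ht.le (by positivity) (by nlinarith) hder w₂ hmem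
  have hF1 : F w₁ = r w₁ := by simp [hF]
  rw [hF1, hn2] at hkey
  have hF2 : ‖F w₂‖ = ‖r w₂‖ * Real.exp (-(‖g w₁‖ * t)) := by
    simp only [hF, norm_mul]
    rw [hgd, Complex.norm_exp, Complex.neg_re, Complex.ofReal_re]
  have hlow : ‖r w₁‖ * (1 - 2 * (B * t ^ 2)) ≤ ‖F w₂‖ := by
    have h3 : ‖r w₁‖ - ‖F w₂‖ ≤ ‖F w₂ - r w₁‖ := by
      rw [norm_sub_rev]; exact norm_sub_norm_le _ _
    have h4 : 2 * (B * t) * t * ‖r w₁‖ = ‖r w₁‖ * (2 * (B * t ^ 2)) := by ring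
    nlinarith
  have hexp : Real.exp (-(4 * (B * t ^ 2))) ≤ 1 - 2 * (B * t ^ 2) := by
    have hu0 : 0 ≤ B * t ^ 2 := by positivity
    set u := B * t ^ 2 with hu
    have h5 : 1 + 4 * u ≤ Real.exp (4 * u) := by
      have := Real.add_one_le_exp (4 * u); linarith
    rw [Real.exp_neg]
    rw [inv_le_comm₀ (Real.exp_pos _) (by linarith)]
    refine le_trans ?_ h5
    rw [inv_le_iff_one_le_mul₀ (by linarith)]
    nlinarith
  have h6 : Real.exp (-(4 * (B * t ^ 2))) * ‖r w₁‖ ≤ ‖r w₂‖ * Real.exp (-(‖g w₁‖ * t)) := by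
    rw [← hF2]
    refine le_trans ?_ hlow
    rw [mul_comm]
    exact mul_le_mul_of_nonneg_left hexp (norm_nonneg _)
  have h7 : Real.exp (-(4 * (B * t ^ 2))) * ‖r w₁‖ * Real.exp (‖g w₁‖ * t) ≤ ‖r w₂‖ := by
    calc _ ≤ ‖r w₂‖ * Real.exp (-(‖g w₁‖ * t)) * Real.exp (‖g w₁‖ * t) :=
          mul_le_mul_of_nonneg_right h6 (Real.exp_pos _).le
      _ = ‖r w₂‖ := by
          rw [mul_assoc, ← Real.exp_add]; simp
  refine le_trans ?_ h7
  have h8 : Real.exp (-(4 * (B * t ^ 2))) * ‖r w₁‖ * Real.exp (‖g w₁‖ * t) =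
      Real.exp (-(4 * (B * t ^ 2)) + ‖g w₁‖ * t) * ‖r w₁‖ := by
    rw [Real.exp_add]; ring
  rw [h8]
  refine mul_le_mul_of_nonneg_right ?_ (norm_nonneg _)
  apply Real.exp_le_exp.2
  have h9 : γ * t ≤ ‖g w₁‖ * t := mul_le_mul_of_nonneg_right hγ ht.le
  have h10 : 8 * B * t * t ≤ γ * t := mul_le_mul_of_nonneg_right hcmp ht.le
  nlinarith

theorem t_out (hld : St_ld) : St_out := by
  intro r g y ρ₀ ε d B c hG L hL
  have hB : 1 ≤ B := hG.hB
  have hB0 : 0 < B := by linarith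
  have hc : 0 < c := hG.hc
  have hd : 0 < d := hG.hd
  have hε : 0 < ε := hG.hε
  have hρ : 0 < ρ₀ := hG.hρ
  set κ : ℝ := min (1 / 4) (c / (32 * B)) with hκ
  have hκ0 : 0 < κ := lt_min (by norm_num) (by positivity)
  have hκ1 : κ ≤ 1 / 4 := min_le_left _ _
  have hκ2 : κ * (32 * B) ≤ c := by
    have : κ ≤ c / (32 * B) := min_le_right _ _
    rwa [le_div_iff₀ (by positivity)] at this
  set C : ℝ := Real.sqrt (32 * L / (c * κ)) with hCdef
  have hC : 0 < C := Real.sqrt_pos.2 (by positivity)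
  have hC2 : C ^ 2 = 32 * L / (c * κ) := Real.sq_sqrt (by positivity)
  refine ⟨C, hC, ⌈L / ε + κ ^ 2 * C ^ 2 / d ^ 2 + 4 * B * κ ^ 2 * C ^ 2⌉₊ + 1, fun n hn w => ?_⟩
  have hn1 : (1 : ℝ) ≤ n := by exact_mod_cast (le_trans (Nat.le_add_left 1 _) hn)
  have hn0 : (0 : ℝ) < n := by linarith
  have hnn : L / ε + κ ^ 2 * C ^ 2 / d ^ 2 + 4 * B * κ ^ 2 * C ^ 2 ≤ n := by
    refine (Nat.le_ceil _).trans ?_
    exact_mod_cast (le_trans (Nat.le_add_right _ 1) hn)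
  have ha0 : 0 ≤ L / ε := by positivity
  have hb0 : 0 ≤ κ ^ 2 * C ^ 2 / d ^ 2 := by positivity
  have hc0 : 0 ≤ 4 * B * κ ^ 2 * C ^ 2 := by positivity
  set τ : ℝ := C / Real.sqrt n with hτdef
  have hsn : 0 < Real.sqrt n := Real.sqrt_pos.2 hn0
  have hτ : 0 < τ := div_pos hC hsn
  have hτ2 : τ ^ 2 = C ^ 2 / n := by
    rw [hτdef, div_pow, Real.sq_sqrt hn0.le]
  have h1 : L / n ≤ ε := by
    rw [div_le_iff₀ hn0]
    have : L / ε ≤ n := by linarith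
    rw [div_le_iff₀ hε] at this
    linarith
  have h2 : κ * τ ≤ d := by
    have : (κ * τ) ^ 2 ≤ d ^ 2 := by
      rw [mul_pow, hτ2, ← mul_div_assoc, div_le_iff₀ hn0]
      have : κ ^ 2 * C ^ 2 / d ^ 2 ≤ n := by linarith
      rw [div_le_iff₀ (by positivity)] at this
      linarith
    exact (abs_le_of_sq_le_sq' this hd.le).2
  have h3 : B * (κ * τ) ^ 2 ≤ 1 / 4 := by
    have : B * (κ * τ) ^ 2 = B * κ ^ 2 * C ^ 2 / n := by
      rw [mul_pow, hτ2]; ring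
    rw [this, div_le_iff₀ hn0]
    linarith
  have h4 : c * κ * τ ^ 2 = 32 * L / n := by
    rw [hτ2, hC2]
    field_simp
  obtain ⟨w₁, hw1, hw1y⟩ : ∃ w₁ : ℂ, ‖w₁ - w‖ ≤ τ / 2 ∧ τ / 4 ≤ ‖w₁ - y‖ := by
    by_cases h : τ / 4 ≤ ‖w - y‖
    · exact ⟨w, by simp; linarith, h⟩
    · push Not at h
      refine ⟨y + ((τ / 4 : ℝ) : ℂ), ?_, ?_⟩
      · have : y + ((τ / 4 : ℝ) : ℂ) - w = -(w - y) + ((τ / 4 : ℝ) : ℂ) := by ring
        rw [this]
        refine (norm_add_le _ _).trans ?_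
        rw [norm_neg, Complex.norm_real, Real.norm_eq_abs, abs_of_pos (by linarith)]
        linarith
      · rw [add_sub_cancel_left, Complex.norm_real, Real.norm_eq_abs, abs_of_pos (by linarith)]
  by_cases hlev : w₁ ∈ lev r ρ₀ (L / n)
  swap
  · exact ⟨w₁, by linarith, hlev⟩
  obtain ⟨ha, hb, hc', hd'⟩ := hlev
  have hρi : ρ₀⁻¹ ≤ 2 / ρ₀ := by
    rw [inv_eq_one_div]
    exact div_le_div_of_nonneg_right (by norm_num) hρ.le
  obtain ⟨hg, hball⟩ := hG.low w₁ (by linarith) (hb.trans hρi)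
    (le_trans (Real.exp_le_exp.2 (by linarith)) hc') (hd'.trans (Real.exp_le_exp.2 h1))
  have hw1d : w₁ ∈ closedBall w₁ d := mem_closedBall_self hd.le
  obtain ⟨w₂, hw2, hw2r⟩ := grow hld (r := r) (g := g) (w₁ := w₁) (t := κ * τ) (B := B)
    (γ := c * (τ / 4)) (by positivity) hB0.le h3
    ((mul_le_mul_of_nonneg_left hw1y hc.le).trans hg) (by positivity)
    (by nlinarith)
    (fun x hx => ⟨(hball x (closedBall_subset_closedBall h2 hx)).2.1,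
      (hball x (closedBall_subset_closedBall h2 hx)).2.2.2 w₁ hw1d⟩)
  refine ⟨w₂, ?_, ?_⟩
  · have : w₂ - w = (w₂ - w₁) + (w₁ - w) := by ring
    rw [this]
    refine (norm_add_le _ _).trans ?_
    nlinarith
  · rintro ⟨-, -, -, hle⟩
    have h5 : c * (τ / 4) * (κ * τ) / 2 = 4 * (L / n) := by
      have : c * (τ / 4) * (κ * τ) / 2 = c * κ * τ ^ 2 / 8 := by ring
      rw [this, h4]; ring
    rw [h5] at hw2r
    have h6 : Real.exp (4 * (L / n)) * Real.exp (-(L / n)) ≤ Real.exp (L / n) :=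
      ((mul_le_mul_of_nonneg_left hc' (Real.exp_pos _).le).trans hw2r).trans hle
    rw [← Real.exp_add, Real.exp_le_exp] at h6
    have : 0 < L / n := by positivity
    linarith

end Pool.Agent.K3h65.CR
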